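import Pool.Agent.Helper79.ZC.Stmts

set_option autoImplicit false

namespace Pool.Agent.Helper79.ZC

open Complex in
/-- the closed form of the finite sum -/
theorem dec_sum (M : ℕ) (x θ : ℝ) (hx0 : 0 < x) (hx1 : x < 1) :
    ∑ k ∈ Finset.Icc 1 M, x ^ k * (1 - Real.cos (k * θ)) =
      (1 / (1 - x : ℂ) - 1 / (1 - x * Complex.exp (Complex.I * θ))).re -
      ((x : ℂ) ^ (M + 1) / (1 - x : ℂ) -
        (x * Complex.exp (Complex.I * θ)) ^ (M + 1) / (1 - x * Complex.exp (Complex.I * θ))).re := by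
  set z : ℂ := x * Complex.exp (Complex.I * θ) with hz
  have hzn : ‖z‖ = x := by
    rw [hz, norm_mul, mul_comm Complex.I, Complex.norm_exp_ofReal_mul_I, mul_one,
      Complex.norm_real, Real.norm_eq_abs, abs_of_pos hx0]
  have hz1 : (1 : ℂ) - z ≠ 0 := by
    intro h
    have : z = 1 := by linear_combination -h
    rw [this, norm_one] at hzn
    linarith
  have hx1' : (1 : ℂ) - x ≠ 0 := by
    intro h
    have h2 : ((1 - x : ℝ) : ℂ) = 0 := by push_cast; exact h
    have h3 := Complex.ofReal_eq_zero.mp h2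
    linarith
  have hgeo : ∀ y : ℂ, (1 - y) ≠ 0 → ∑ k ∈ Finset.Icc 1 M, y ^ k = 1 / (1 - y) - 1 - y ^ (M + 1) / (1 - y) := by
    intro y hy
    induction M with
    | zero => simp; field_simp; ring
    | succ n ih =>
      rw [Finset.sum_Icc_succ_top (by omega), ih]
      field_simp
      ring
  have hterm : ∀ k : ℕ, x ^ k * (1 - Real.cos (k * θ)) = ((x : ℂ) ^ k - z ^ k).re := by
    intro k
    rw [hz, mul_pow, ← Complex.exp_nat_mul]
    have h1 : (k : ℂ) * (Complex.I * θ) = ((k * θ : ℝ) : ℂ) * Complex.I := by push_cast; ring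
    rw [h1, Complex.exp_mul_I, ← Complex.ofReal_cos, ← Complex.ofReal_sin, ← Complex.ofReal_pow]
    simp only [Complex.sub_re, Complex.mul_re, Complex.add_re, Complex.ofReal_re, Complex.ofReal_im,
      Complex.I_re, Complex.I_im, Complex.add_im, Complex.mul_im]
    ring
  rw [Finset.sum_congr rfl (fun k _ => hterm k), ← Complex.re_sum, Finset.sum_sub_distrib,
    hgeo _ hx1', hgeo _ hz1, ← Complex.sub_re]
  congr 1
  ring

/-- the main term -/
theorem dec_main (x θ : ℝ) (hx0 : 0 < x) (hx1 : x < 1) :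
    (1 / (1 - x : ℂ) - 1 / (1 - x * Complex.exp (Complex.I * θ))).re =
      (2 * x * (1 - Real.cos θ)) * (1 - (1 - x) / 2) /
        ((1 - x) * ((1 - x) ^ 2 + 2 * x * (1 - Real.cos θ))) := by
  have h1 : (1 / (1 - x : ℂ)) = ((1 / (1 - x) : ℝ) : ℂ) := by push_cast; ring
  rw [h1]
  have h2 : Complex.exp (Complex.I * θ) = (Real.cos θ : ℂ) + (Real.sin θ : ℂ) * Complex.I := by
    rw [mul_comm, Complex.exp_mul_I, ← Complex.ofReal_cos, ← Complex.ofReal_sin]
  rw [h2, Complex.sub_re, Complex.ofReal_re, one_div, one_div, Complex.inv_re, Complex.normSq_apply]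
  simp only [Complex.sub_re, Complex.sub_im, Complex.one_re, Complex.one_im, Complex.mul_re,
    Complex.mul_im, Complex.add_re, Complex.add_im, Complex.ofReal_re, Complex.ofReal_im,
    Complex.I_re, Complex.I_im]
  have hc : Real.cos θ ≤ 1 := Real.cos_le_one θ
  have hd : 0 < 1 - x := by linarith
  have hden : 0 < (1 - x) ^ 2 + 2 * x * (1 - Real.cos θ) := by
    have : 0 ≤ 2 * x * (1 - Real.cos θ) := by
      apply mul_nonneg (by linarith); linarith
    positivity
  have hsq : (1 - (x * (Real.cos θ + (Real.sin θ * 0 - 0 * 1)) - 0 * (0 + (Real.sin θ * 1 + 0 * 0)))) *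
      (1 - (x * (Real.cos θ + (Real.sin θ * 0 - 0 * 1)) - 0 * (0 + (Real.sin θ * 1 + 0 * 0)))) +
      (0 - (x * (0 + (Real.sin θ * 1 + 0 * 0)) + 0 * (Real.cos θ + (Real.sin θ * 0 - 0 * 1)))) *
      (0 - (x * (0 + (Real.sin θ * 1 + 0 * 0)) + 0 * (Real.cos θ + (Real.sin θ * 0 - 0 * 1)))) =
      (1 - x) ^ 2 + 2 * x * (1 - Real.cos θ) := by
    have := Real.sin_sq_add_cos_sq θ
    linear_combination x ^ 2 * this
  rw [hsq]
  have hdd := hd.ne'
  have hdn := hden.ne'
  set W : ℝ := 2 * x * (1 - Real.cos θ) with hW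
  set D : ℝ := 1 - x with hD
  have hnum : 1 - (x * (Real.cos θ + (Real.sin θ * 0 - 0 * 1)) - 0 * (0 + (Real.sin θ * 1 + 0 * 0))) =
      D + W / 2 := by
    rw [hW, hD]; ring
  rw [hnum]
  field_simp
  ring

/-- the tail -/
theorem dec_tail (M : ℕ) (x θ : ℝ) (hx0 : 0 < x) (hx1 : x < 1) :
    ((x : ℂ) ^ (M + 1) / (1 - x : ℂ) -
        (x * Complex.exp (Complex.I * θ)) ^ (M + 1) / (1 - x * Complex.exp (Complex.I * θ))).re ≤
      2 * (x ^ (M + 1) / (1 - x)) := by
  set z : ℂ := x * Complex.exp (Complex.I * θ) with hz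
  have hzn : ‖z‖ = x := by
    rw [hz, norm_mul, mul_comm Complex.I, Complex.norm_exp_ofReal_mul_I, mul_one,
      Complex.norm_real, Real.norm_eq_abs, abs_of_pos hx0]
  have hd : 0 < 1 - x := by linarith
  have hz1 : 1 - x ≤ ‖(1 : ℂ) - z‖ := by
    have := norm_sub_norm_le (1 : ℂ) z
    rw [norm_one, hzn] at this
    exact this
  have hx1' : ‖(1 : ℂ) - x‖ = 1 - x := by
    have h2 : (1 : ℂ) - x = ((1 - x : ℝ) : ℂ) := by push_cast; ring
    rw [h2, Complex.norm_real, Real.norm_eq_abs, abs_of_pos hd]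
  refine (Complex.re_le_norm _).trans ?_
  refine (norm_sub_le _ _).trans ?_
  rw [norm_div, norm_div, norm_pow, norm_pow, hzn, hx1', Complex.norm_real, Real.norm_eq_abs,
    abs_of_pos hx0]
  have : x ^ (M + 1) / ‖(1 : ℂ) - z‖ ≤ x ^ (M + 1) / (1 - x) :=
    div_le_div_of_nonneg_left (by positivity) hd hz1
  linarith

theorem st_DEC (hF : ST_FAC) : ST_DEC := by
  refine ⟨1 / 40, Real.exp 4, by norm_num, Real.exp_pos _, ?_⟩
  intro M α θ hα0 hα1 hM hθ
  set x : ℝ := Real.exp (-α) with hx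
  have hx0 : 0 < x := Real.exp_pos _
  have hx1 : x < 1 := by
    rw [hx, Real.exp_lt_one_iff]; linarith
  -- the product bound
  have h1 : ‖phi M α θ‖ ≤ Real.exp (-∑ k ∈ Finset.Icc 1 M, x ^ k * (1 - Real.cos (k * θ))) := by
    unfold phi
    rw [norm_prod, ← Finset.sum_neg_distrib, Real.exp_sum]
    apply Finset.prod_le_prod
    · intro k _; exact norm_nonneg _
    · intro k hk
      have hk1 : 1 ≤ k := (Finset.mem_Icc.mp hk).1
      have hxk : x ^ k = Real.exp (-α * k) := by
        rw [hx, ← Real.exp_nat_mul]; congr 1; ring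
      have hlt : x ^ k < 1 := pow_lt_one₀ hx0.le hx1 (by omega)
      have := (hF (x ^ k) (k * θ) (by positivity) hlt).1
      rw [hxk] at this
      rw [hxk]
      have e1 : Complex.exp (-(α : ℂ) * k + Complex.I * θ * k) =
          ((Real.exp (-α * k) : ℝ) : ℂ) * Complex.exp (Complex.I * ((k * θ : ℝ) : ℂ)) := by
        rw [Complex.ofReal_exp, ← Complex.exp_add]
        congr 1
        push_cast; ring
      rw [e1]
      refine this.trans (le_of_eq ?_)
      congr 1
      ring
  refine h1.trans ?_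
  rw [dec_sum M x θ hx0 hx1, dec_main x θ hx0 hx1]
  set w : ℝ := 2 * x * (1 - Real.cos θ) with hw
  set d : ℝ := 1 - x with hd
  have hd0 : 0 < d := by rw [hd]; linarith
  have hdα : d ≤ α := by
    have := Real.add_one_le_exp (-α)
    rw [hd, hx]; linarith
  have hd2 : α / 2 ≤ d := by
    -- exp(-α) ≤ 1/(1+α) ≤ 1 - α/2
    have h2 := Real.add_one_le_exp α
    have h3 : x * Real.exp α = 1 := by rw [hx, ← Real.exp_add]; simp
    have h4 : x * (1 + α) ≤ 1 := by
      calc x * (1 + α) ≤ x * Real.exp α := by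
            apply mul_le_mul_of_nonneg_left _ hx0.le; linarith
        _ = 1 := h3
    rw [hd]
    nlinarith
  have hxlow : 1 / 3 ≤ x := by
    have h2 : Real.exp (-1) ≤ x := by
      rw [hx]; apply Real.exp_le_exp.mpr; linarith
    have h3 : (1 : ℝ) / 3 ≤ Real.exp (-1) := by
      rw [Real.exp_neg, one_div]
      apply inv_anti₀ (Real.exp_pos _)
      have := Real.exp_one_lt_d9
      linarith
    linarith
  have hcos : 1 - Real.cos θ ≥ 2 / Real.pi ^ 2 * θ ^ 2 := by
    have := Real.cos_le_one_sub_mul_cos_sq hθ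
    linarith
  have hpi : Real.pi ^ 2 < 10 := by
    have := Real.pi_lt_d2
    have h0 := Real.pi_pos
    nlinarith
  have hcos2 : 1 - Real.cos θ ≥ θ ^ 2 / 5 := by
    have h3 : (2 : ℝ) / 10 ≤ 2 / Real.pi ^ 2 :=
      div_le_div_of_nonneg_left (by norm_num) (by have := Real.pi_pos; positivity) hpi.le
    have h4 := mul_le_mul_of_nonneg_right h3 (sq_nonneg θ)
    linarith
  have hwlow : θ ^ 2 / 10 ≤ w := by
    rw [hw]
    have h0 : 0 ≤ θ ^ 2 / 5 := by positivity
    nlinarith
  have hw0 : 0 ≤ w := le_trans (by positivity) hwlow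
  -- the tail
  have htail := dec_tail M x θ hx0 hx1
  have htail2 : 2 * (x ^ (M + 1) / d) ≤ 4 := by
    have hαM : 1 / α ≤ α * M := by
      rw [div_le_iff₀ hα0]
      nlinarith
    have e1 : x ^ (M + 1) ≤ Real.exp (-(1 / α)) := by
      rw [hx, ← Real.exp_nat_mul]
      apply Real.exp_le_exp.mpr
      push_cast
      nlinarith
    have e2 : Real.exp (-(1 / α)) ≤ α := by
      have h3 := Real.add_one_le_exp (1 / α)
      have h4 : 0 < 1 / α := by positivity
      rw [Real.exp_neg]
      have h5 : (Real.exp (1 / α))⁻¹ ≤ (1 / α)⁻¹ := by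
        apply inv_anti₀ h4
        linarith
      simpa using h5
    have e3 : x ^ (M + 1) / d ≤ 2 := by
      rw [div_le_iff₀ hd0]
      linarith
    linarith
  -- the main term
  have hdlt : d < 1 := by rw [hd]; linarith
  have hmain : min (θ ^ 2 / (40 * α ^ 3)) (1 / (40 * α)) ≤ w * (1 - d / 2) / (d * (d ^ 2 + w)) := by
    have hA : w / (2 * (d * (d ^ 2 + w))) ≤ w * (1 - d / 2) / (d * (d ^ 2 + w)) := by
      have hp : 0 < d * (d ^ 2 + w) := by positivity
      rw [div_le_div_iff₀ (by positivity) hp]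
      have h7 : 0 ≤ w * (d * (d ^ 2 + w)) := by positivity
      nlinarith
    refine le_trans ?_ hA
    have hα3 : 0 < α ^ 3 := by positivity
    rcases le_total w (α ^ 2) with hc | hc
    · refine (min_le_left _ _).trans ?_
      rcases eq_or_lt_of_le hw0 with h0 | h0
      · have : θ ^ 2 = 0 := by nlinarith [sq_nonneg θ]
        rw [← h0, this]; simp
      · rw [div_le_div_iff₀ (by positivity) (by positivity)]
        have h5 : d * (d ^ 2 + w) ≤ α * (α ^ 2 + α ^ 2) := by
          apply mul_le_mul hdα _ (by positivity) hα0.le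
          have : d ^ 2 ≤ α ^ 2 := by gcongr
          linarith
        have h6 : θ ^ 2 ≤ 10 * w := by linarith
        calc θ ^ 2 * (2 * (d * (d ^ 2 + w))) ≤ (10 * w) * (2 * (α * (α ^ 2 + α ^ 2))) := by
              apply mul_le_mul h6 (by linarith) (by positivity) (by positivity)
          _ = w * (40 * α ^ 3) := by ring
    · refine (min_le_right _ _).trans ?_
      have hw1 : 0 < w := lt_of_lt_of_le (by positivity) hc
      rw [div_le_div_iff₀ (by positivity) (by positivity)]
      have h5 : d * (d ^ 2 + w) ≤ α * (w + w) := by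
        apply mul_le_mul hdα _ (by positivity) hα0.le
        have : d ^ 2 ≤ α ^ 2 := by gcongr
        linarith
      nlinarith
  have hfin : -(w * (1 - d / 2) / (d * (d ^ 2 + w)) -
      ((x : ℂ) ^ (M + 1) / (1 - x : ℂ) -
        (x * Complex.exp (Complex.I * θ)) ^ (M + 1) / (1 - x * Complex.exp (Complex.I * θ))).re)
      ≤ 4 + -(min (θ ^ 2 / (40 * α ^ 3)) (1 / (40 * α))) := by
    linarith
  refine (Real.exp_le_exp.mpr hfin).trans ?_
  rw [Real.exp_add]
  apply mul_le_mul_of_nonneg_left _ (Real.exp_pos _).le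
  rcases le_total (θ ^ 2 / (40 * α ^ 3)) (1 / (40 * α)) with hc | hc
  · rw [min_eq_left hc]
    have : -(θ ^ 2 / (40 * α ^ 3)) = -(1 / 40) * θ ^ 2 / α ^ 3 := by
      field_simp
    rw [this]
    have := Real.exp_pos (-(1 / 40) / α)
    linarith
  · rw [min_eq_right hc]
    have : -(1 / (40 * α)) = -(1 / 40) / α := by
      field_simp
    rw [this]
    have := Real.exp_pos (-(1 / 40) * θ ^ 2 / α ^ 3)
    linarith

end Pool.Agent.Helper79.ZC
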