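import Pool.Agent.Helper79.ZC.Stmts

set_option autoImplicit false

namespace Pool.Agent.Helper79.ZC

open Filter Topology

theorem rat_log (r : ℝ) (hr : 0 < r) :
    Tendsto (fun n : ℕ => Real.log n / (n : ℝ) ^ r) atTop (𝓝 0) :=
  ((isLittleO_log_rpow_atTop hr).tendsto_div_nhds_zero).comp tendsto_natCast_atTop_atTop

theorem rat_al_pos {n : ℕ} (hn : 0 < n) : 0 < al n := by
  unfold al
  have : (0 : ℝ) < n := by exact_mod_cast hn
  have := Real.pi_pos
  positivity

theorem rat_al_sq {n : ℕ} (hn : 0 < n) : al n ^ 2 = Real.pi ^ 2 / (6 * n) := by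
  unfold al
  have : (0 : ℝ) < n := by exact_mod_cast hn
  rw [div_pow, Real.sq_sqrt (by positivity)]

theorem rat_al_rpow {n : ℕ} (hn : 0 < n) :
    (al n) ^ (3 / 2 : ℝ) = (Real.pi ^ 2 / 6) ^ (3 / 4 : ℝ) * (n : ℝ) ^ (-(3 / 4) : ℝ) := by
  have hn' : (0 : ℝ) < n := by exact_mod_cast hn
  have h1 : (al n) ^ (3 / 2 : ℝ) = (al n ^ 2) ^ (3 / 4 : ℝ) := by
    rw [← Real.rpow_natCast (al n) 2, ← Real.rpow_mul (rat_al_pos hn).le]
    congr 1
    norm_num
  rw [h1, rat_al_sq hn, ← div_div, Real.div_rpow (by positivity) hn'.le, Real.rpow_neg hn'.le]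
  rfl

theorem st_RAT (hGF : ST_GF) (hLIP : ST_LIP) (hLOW : ST_LOW) : ST_RAT := by
  intro K ε hK hε
  obtain ⟨C, hC, hlip⟩ := hLIP
  obtain ⟨c, hc, hlow⟩ := hLOW
  set A : ℝ := C / c * K * (Real.pi ^ 2 / 6) ^ (3 / 4 : ℝ) with hA
  have hpi := Real.pi_pos
  have t1 : Tendsto (fun n : ℕ => A * (Real.log n / (n : ℝ) ^ (1 / 4 : ℝ))) atTop (𝓝 0) := by
    have := (rat_log (1 / 4) (by norm_num)).const_mul A
    simpa using this
  have t2 : Tendsto (fun n : ℕ => K * (Real.log n / (n : ℝ) ^ (1 / 2 : ℝ))) atTop (𝓝 0) := by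
    have := (rat_log (1 / 2) (by norm_num)).const_mul K
    simpa using this
  filter_upwards [hlow, t1.eventually (gt_mem_nhds hε), t2.eventually (gt_mem_nhds one_pos),
    eventually_ge_atTop 2] with n hl h1 h2 hn2
  intro s hs
  have hn0 : 0 < n := by omega
  have hn : (0 : ℝ) < n := by exact_mod_cast hn0
  have hα := rat_al_pos hn0
  have hα2 := rat_al_sq hn0
  have hα1 : al n ≤ 1 := by
    have h3 : al n ^ 2 ≤ 1 := by
      rw [hα2, div_le_one (by positivity)]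
      have := Real.pi_lt_d2
      have h2' : (2 : ℝ) ≤ n := by exact_mod_cast hn2
      nlinarith
    nlinarith
  have hM : 1 ≤ ((2 * n : ℕ) : ℝ) * al n ^ 2 := by
    rw [hα2]
    push_cast
    rw [mul_div_assoc', le_div_iff₀ (by positivity)]
    have h9 : 9 ≤ Real.pi ^ 2 := by
      have := Real.pi_gt_three
      nlinarith
    nlinarith
  have hsq : Real.sqrt n = (n : ℝ) ^ (1 / 2 : ℝ) := Real.sqrt_eq_rpow n
  have hlog : 0 ≤ Real.log n := Real.log_nonneg (by exact_mod_cast hn0)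
  have hsn : s ≤ n := by
    have h3 : K * Real.sqrt n * Real.log n ≤ n := by
      have h4 : K * (Real.log n / (n : ℝ) ^ (1 / 2 : ℝ)) ≤ 1 := h2.le
      have h5 : 0 < (n : ℝ) ^ (1 / 2 : ℝ) := Real.rpow_pos_of_pos hn _
      have h6 : K * Real.log n ≤ (n : ℝ) ^ (1 / 2 : ℝ) := by
        rw [mul_div_assoc', div_le_one h5] at h4
        exact h4
      have h7 : Real.sqrt n * Real.sqrt n = n := Real.mul_self_sqrt hn.le
      rw [← hsq] at h6
      calc K * Real.sqrt n * Real.log n = Real.sqrt n * (K * Real.log n) := by ring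
        _ ≤ Real.sqrt n * Real.sqrt n := by gcongr
        _ = n := h7
    exact_mod_cast hs.trans h3
  -- the product factor
  set P : ℝ := ∏ k ∈ Finset.Icc 1 (2 * n), (1 - Real.exp (-(al n) * k)) with hP
  have hPpos : 0 < P := by
    rw [hP]
    apply Finset.prod_pos
    intro k hk
    have hk1 : (1 : ℝ) ≤ k := by exact_mod_cast (Finset.mem_Icc.mp hk).1
    have : Real.exp (-(al n) * k) < 1 := by
      rw [Real.exp_lt_one_iff]
      nlinarith
    linarith
  have hqq : ∀ m : ℕ, m ≤ 2 * n → qq (2 * n) (al n) m = (pn m : ℝ) * Real.exp (-(al n) * m) * P := by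
    intro m hm
    unfold qq
    rw [hGF.2.1 (2 * n) m hm]
  have hpn : (0 : ℝ) < pn n := by
    unfold pn
    exact_mod_cast Fintype.card_pos
  have hq0 : 0 < qq (2 * n) (al n) n := by
    rw [hqq n (by omega)]
    have := Real.exp_pos (-(al n) * n)
    positivity
  -- relative error
  have hrel : ∀ m : ℕ, |(m : ℝ) - n| ≤ s → |qq (2 * n) (al n) m / qq (2 * n) (al n) n - 1| ≤ ε := by
    intro m hm
    have h3 := hlip (2 * n) (al n) hα hα1 hM m n
    have h4 : |qq (2 * n) (al n) m / qq (2 * n) (al n) n - 1| =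
        |qq (2 * n) (al n) m - qq (2 * n) (al n) n| / qq (2 * n) (al n) n := by
      rw [div_sub_one hq0.ne', abs_div, abs_of_pos hq0]
    rw [h4, div_le_iff₀ hq0]
    refine h3.trans ?_
    have h5 : al n ^ 3 = (al n) ^ (3 / 2 : ℝ) * (al n) ^ (3 / 2 : ℝ) := by
      rw [← Real.rpow_add hα, ← Real.rpow_natCast]
      norm_num
    have h6 : C * (al n) ^ (3 / 2 : ℝ) * s ≤ ε * c := by
      have h7 : (s : ℝ) * (n : ℝ) ^ (-(3 / 4) : ℝ) ≤ K * (Real.log n / (n : ℝ) ^ (1 / 4 : ℝ)) := by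
        have h8 : Real.sqrt n * (n : ℝ) ^ (-(3 / 4) : ℝ) = ((n : ℝ) ^ (1 / 4 : ℝ))⁻¹ := by
          rw [hsq, ← Real.rpow_add hn, ← Real.rpow_neg hn.le]
          norm_num
        calc (s : ℝ) * (n : ℝ) ^ (-(3 / 4) : ℝ)
            ≤ (K * Real.sqrt n * Real.log n) * (n : ℝ) ^ (-(3 / 4) : ℝ) := by
              apply mul_le_mul_of_nonneg_right hs (Real.rpow_nonneg hn.le _)
          _ = K * Real.log n * (Real.sqrt n * (n : ℝ) ^ (-(3 / 4) : ℝ)) := by ring
          _ = K * (Real.log n / (n : ℝ) ^ (1 / 4 : ℝ)) := by rw [h8]; ring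
      have h9 : C / c * (K * (Real.log n / (n : ℝ) ^ (1 / 4 : ℝ))) * (Real.pi ^ 2 / 6) ^ (3 / 4 : ℝ) ≤ ε := by
        have := h1.le
        rw [hA] at this
        calc _ = C / c * K * (Real.pi ^ 2 / 6) ^ (3 / 4 : ℝ) *
              (Real.log n / (n : ℝ) ^ (1 / 4 : ℝ)) := by ring
          _ ≤ ε := this
      have h10 : 0 ≤ (Real.pi ^ 2 / 6) ^ (3 / 4 : ℝ) := Real.rpow_nonneg (by positivity) _
      rw [rat_al_rpow hn0]
      calc C * ((Real.pi ^ 2 / 6) ^ (3 / 4 : ℝ) * (n : ℝ) ^ (-(3 / 4) : ℝ)) * s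
          = c * (C / c * ((s : ℝ) * (n : ℝ) ^ (-(3 / 4) : ℝ)) * (Real.pi ^ 2 / 6) ^ (3 / 4 : ℝ)) := by
            field_simp
        _ ≤ c * (C / c * (K * (Real.log n / (n : ℝ) ^ (1 / 4 : ℝ))) * (Real.pi ^ 2 / 6) ^ (3 / 4 : ℝ)) := by
            apply mul_le_mul_of_nonneg_left _ hc.le
            apply mul_le_mul_of_nonneg_right _ h10
            apply mul_le_mul_of_nonneg_left h7 (by positivity)
        _ ≤ c * ε := mul_le_mul_of_nonneg_left h9 hc.le
        _ = ε * c := by ring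
    have hα32 : 0 < (al n) ^ (3 / 2 : ℝ) := Real.rpow_pos_of_pos hα _
    calc C * al n ^ 3 * |(m : ℝ) - n| ≤ C * al n ^ 3 * s := by
          apply mul_le_mul_of_nonneg_left hm (by positivity)
      _ = (C * (al n) ^ (3 / 2 : ℝ) * s) * (al n) ^ (3 / 2 : ℝ) := by rw [h5]; ring
      _ ≤ (ε * c) * (al n) ^ (3 / 2 : ℝ) := mul_le_mul_of_nonneg_right h6 hα32.le
      _ = ε * (c * (al n) ^ (3 / 2 : ℝ)) := by ring
      _ ≤ ε * qq (2 * n) (al n) n := mul_le_mul_of_nonneg_left hl hε.le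
  have hratio : ∀ m : ℕ, m ≤ 2 * n → (pn m : ℝ) / pn n =
      qq (2 * n) (al n) m / qq (2 * n) (al n) n * Real.exp (al n * ((m : ℝ) - n)) := by
    intro m hm
    rw [hqq m hm, hqq n (by omega)]
    have e1 : Real.exp (-(al n) * m) = Real.exp (-(al n) * n) * Real.exp (-(al n * ((m : ℝ) - n))) := by
      rw [← Real.exp_add]; congr 1; ring
    rw [e1]
    have e2 : Real.exp (-(al n * ((m : ℝ) - n))) * Real.exp (al n * ((m : ℝ) - n)) = 1 := by
      rw [← Real.exp_add]; simp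
    have e3 := Real.exp_pos (-(al n) * n)
    rw [div_mul_eq_mul_div, div_eq_div_iff hpn.ne' (by positivity)]
    linear_combination (-(pn m : ℝ) * pn n * Real.exp (-(al n) * n) * P) * e2
  have hgen : ∀ m : ℕ, m ≤ 2 * n → |(m : ℝ) - n| ≤ s →
      |(pn m : ℝ) / pn n - Real.exp (al n * ((m : ℝ) - n))| ≤ ε * Real.exp (al n * ((m : ℝ) - n)) := by
    intro m hm hms
    rw [hratio m hm]
    have e1 : qq (2 * n) (al n) m / qq (2 * n) (al n) n * Real.exp (al n * ((m : ℝ) - n)) -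
        Real.exp (al n * ((m : ℝ) - n)) =
        (qq (2 * n) (al n) m / qq (2 * n) (al n) n - 1) * Real.exp (al n * ((m : ℝ) - n)) := by ring
    rw [e1, abs_mul, abs_of_pos (Real.exp_pos _)]
    exact mul_le_mul_of_nonneg_right (hrel m hms) (Real.exp_pos _).le
  refine ⟨hsn, ?_, ?_⟩
  · have h3 := hgen (n + s) (by omega) (by push_cast; simp)
    have h4 : ((n + s : ℕ) : ℝ) - n = s := by push_cast; ring
    rwa [h4] at h3
  · have h4 : ((n - s : ℕ) : ℝ) - n = -s := by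
      rw [Nat.cast_sub hsn]; ring
    have h3 := hgen (n - s) (by omega) (by rw [h4, abs_neg]; simp)
    rw [h4] at h3
    have h5 : al n * (-(s : ℝ)) = -(al n) * s := by ring
    rwa [h5] at h3

end Pool.Agent.Helper79.ZC
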