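import Pool.Agent.Helper79.ZC.Stmts

set_option autoImplicit false

namespace Pool.Agent.Helper79.ZC

open Filter Topology

theorem tel_al_pos {n : ℕ} (hn : 0 < n) : 0 < al n := by
  unfold al
  have : (0 : ℝ) < n := by exact_mod_cast hn
  have := Real.pi_pos
  positivity

theorem tel_al_eq (n : ℕ) : al n = Real.pi / Real.sqrt 6 / Real.sqrt n := by
  unfold al
  rw [Real.sqrt_mul (by norm_num), div_div]

theorem tel_sqrt_tendsto : Tendsto (fun n : ℕ => Real.sqrt n) atTop atTop :=
  Real.tendsto_sqrt_atTop.comp tendsto_natCast_atTop_atTop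

theorem tel_al_tendsto : Tendsto al atTop (𝓝 0) := by
  have h : al = fun n : ℕ => Real.pi / Real.sqrt 6 / Real.sqrt n := funext tel_al_eq
  rw [h]
  exact tel_sqrt_tendsto.const_div_atTop _

theorem tel_pi6 : 1 ≤ Real.pi / Real.sqrt 6 ∧ Real.pi / Real.sqrt 6 ≤ 2 := by
  have h1 : Real.sqrt 6 ≤ 3 := by
    rw [Real.sqrt_le_left (by norm_num)]; norm_num
  have h2 : 2 ≤ Real.sqrt 6 := by
    apply Real.le_sqrt_of_sq_le; norm_num
  have h3 := Real.pi_gt_three
  have h4 := Real.pi_lt_d2
  have h0 : 0 < Real.sqrt 6 := by linarith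
  constructor
  · rw [le_div_iff₀ h0]; linarith
  · rw [div_le_iff₀ h0]; linarith

theorem tel_step {n t : ℕ} (hn : 0 < n) (ht : Real.sqrt n ≤ t) : EE n (t + 1) ≤ EE n t := by
  unfold EE
  have hn' : (0 : ℝ) < n := by exact_mod_cast hn
  have hs : 0 < Real.sqrt n := Real.sqrt_pos.mpr hn'
  have ht0 : (0 : ℝ) < t := lt_of_lt_of_le hs ht
  have hα := tel_al_pos hn
  have h1 : 1 ≤ al n * t := by
    rw [tel_al_eq, div_mul_eq_mul_div, le_div_iff₀ hs, one_mul]
    have := tel_pi6.1
    nlinarith
  have h2 : -(al n) * ((t + 1 : ℕ) : ℝ) = -(al n) * t + -(al n) := by push_cast; ring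
  rw [h2, Real.exp_add, ← mul_assoc, mul_right_comm]
  have h3 : ((t + 1 : ℕ) : ℝ) * Real.exp (-(al n)) ≤ t := by
    have h4 := Real.add_one_le_exp (al n)
    have h5 : Real.exp (-(al n)) * Real.exp (al n) = 1 := by rw [← Real.exp_add]; simp
    have h6 : 0 < Real.exp (-(al n)) := Real.exp_pos _
    have h7 : ((t + 1 : ℕ) : ℝ) ≤ t * Real.exp (al n) := by
      push_cast
      nlinarith
    calc ((t + 1 : ℕ) : ℝ) * Real.exp (-(al n)) ≤ t * Real.exp (al n) * Real.exp (-(al n)) :=
          mul_le_mul_of_nonneg_right h7 h6.le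
      _ = t := by linear_combination (t : ℝ) * h5
  exact mul_le_mul_of_nonneg_right h3 (Real.exp_pos _).le

theorem tel_anti {n s t : ℕ} (hn : 0 < n) (hs : Real.sqrt n ≤ s) (hst : s ≤ t) :
    EE n t ≤ EE n s := by
  induction t, hst using Nat.le_induction with
  | base => exact le_refl _
  | succ t hst ih =>
    refine le_trans (tel_step hn ?_) ih
    exact hs.trans (by exact_mod_cast hst)

theorem tel_tele (f : ℕ → ℝ) {p q : ℕ} (h : p ≤ q) :
    ∑ t ∈ Finset.Ico p q, (f t - f (t + 1)) = f p - f q := by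
  induction q, h using Nat.le_induction with
  | base => simp
  | succ q hq ih =>
    rw [Finset.sum_Ico_succ_top hq, ih]; ring

theorem st_TEL (hW : ST_WIN) : ST_TEL := by
  intro B ε hB hε
  have hB0 : 0 < B := by linarith
  set e : ℝ := min (ε / (6 * B)) (1 / 2) with he
  have he0 : 0 < e := by rw [he]; positivity
  have he1 : e ≤ 1 / 2 := min_le_right _ _
  have he2 : 6 * B * e ≤ ε := by
    have := min_le_left (ε / (6 * B)) (1 / 2)
    rw [← he, le_div_iff₀ (by positivity)] at this
    linarith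
  have he3 : 6 * e ≤ ε := by nlinarith
  -- eventual facts
  have t1 : Tendsto (fun n : ℕ => Real.exp (B * al n)) atTop (𝓝 1) := by
    have h := (tel_al_tendsto.const_mul B)
    rw [mul_zero] at h
    have h2 := (Real.continuous_exp.tendsto 0).comp h
    rw [Real.exp_zero] at h2
    exact h2
  have t2 : Tendsto (fun n : ℕ => Real.sqrt n * Real.exp (-3)) atTop atTop :=
    tel_sqrt_tendsto.atTop_mul_const (Real.exp_pos _)
  have t3 : Tendsto (fun n : ℕ => Real.sqrt n ^ 2 * Real.exp (-(Real.sqrt n))) atTop (𝓝 0) :=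
    (Real.tendsto_pow_mul_exp_neg_atTop_nhds_zero 2).comp tel_sqrt_tendsto
  have t4 : Tendsto (fun n : ℕ => Real.log n / (n : ℝ) ^ (1 / 2 : ℝ)) atTop (𝓝 0) :=
    ((isLittleO_log_rpow_atTop (by norm_num)).tendsto_div_nhds_zero).comp
      tendsto_natCast_atTop_atTop
  filter_upwards [hW B e hB he0, t1.eventually (gt_mem_nhds (show (1 : ℝ) < 1 + e by linarith)),
    t2.eventually (eventually_gt_atTop B), t3.eventually (gt_mem_nhds (show 0 < 1 / B by positivity)),
    t4.eventually (gt_mem_nhds one_pos), tel_al_tendsto.eventually (gt_mem_nhds one_pos),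
    eventually_ge_atTop 2]
    with n hwin h1 h2 h3 h4 h5 hn2
  have hn0 : 0 < n := by omega
  have hn : (0 : ℝ) < n := by exact_mod_cast hn0
  have hs : 0 < Real.sqrt n := Real.sqrt_pos.mpr hn
  have hα := tel_al_pos hn0
  have hlog : 0 < Real.log n := Real.log_pos (by exact_mod_cast hn2)
  have hsl : Real.sqrt n * Real.log n ≤ n := by
    rw [← Real.sqrt_eq_rpow, div_lt_one hs] at h4
    calc Real.sqrt n * Real.log n ≤ Real.sqrt n * Real.sqrt n := by gcongr
      _ = n := Real.mul_self_sqrt hn.le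
  -- the end points of the window
  have hex2 : ∃ t : ℕ, Real.sqrt n ≤ t ∧ EE n t < 1 / B := by
    refine ⟨n, ?_, ?_⟩
    · rw [Real.sqrt_le_left hn.le]
      have : (1 : ℝ) ≤ n := by exact_mod_cast hn0
      nlinarith
    · refine lt_of_le_of_lt ?_ h3
      unfold EE
      rw [Real.sq_sqrt hn.le]
      apply mul_le_mul_of_nonneg_left _ hn.le
      apply Real.exp_le_exp.mpr
      have h6 : Real.sqrt n ≤ al n * n := by
        rw [tel_al_eq]
        have h7 : Real.sqrt n * Real.sqrt n = n := Real.mul_self_sqrt hn.le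
        rw [div_mul_eq_mul_div, le_div_iff₀ hs, h7]
        have := tel_pi6.1
        nlinarith
      linarith
  have hex1 : ∃ t : ℕ, Real.sqrt n ≤ t ∧ EE n t ≤ B := by
    obtain ⟨t, ht1, ht2⟩ := hex2
    refine ⟨t, ht1, ht2.le.trans ?_⟩
    rw [div_le_iff₀ hB0]; nlinarith
  classical
  set p := Nat.find hex1 with hp
  set q := Nat.find hex2 with hq
  obtain ⟨hp1, hp2⟩ := Nat.find_spec hex1
  obtain ⟨hq1, hq2⟩ := Nat.find_spec hex2
  rw [← hp] at hp1 hp2
  rw [← hq] at hq1 hq2
  have hBB : 1 / B ≤ B := by rw [div_le_iff₀ hB0]; nlinarith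
  have hpq : p ≤ q := Nat.find_min' hex1 ⟨hq1, hq2.le.trans hBB⟩
  have hin : ∀ t : ℕ, p ≤ t → t < q → Real.sqrt n ≤ t ∧ 1 / B ≤ EE n t ∧ EE n t ≤ B := by
    intro t ht1 ht2
    have h6 : Real.sqrt n ≤ t := hp1.trans (by exact_mod_cast ht1)
    refine ⟨h6, ?_, (tel_anti hn0 hp1 ht1).trans hp2⟩
    by_contra hcon
    exact Nat.find_min hex2 (by rw [← hq]; exact ht2) ⟨h6, not_le.mp hcon⟩
  have hWeq : (Finset.Icc 1 n).filter (fun t : ℕ => Real.sqrt n ≤ t ∧ 1 / B ≤ EE n t ∧ EE n t ≤ B)
      = Finset.Ico p q := by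
    ext t
    simp only [Finset.mem_filter, Finset.mem_Icc, Finset.mem_Ico]
    constructor
    · rintro ⟨-, ht1, ht2, ht3⟩
      refine ⟨Nat.find_min' hex1 ⟨ht1, ht3⟩, ?_⟩
      by_contra hcon
      have := tel_anti hn0 hq1 (not_lt.mp hcon)
      linarith
    · rintro ⟨ht1, ht2⟩
      obtain ⟨a1, a2, a3⟩ := hin t ht1 ht2
      refine ⟨⟨?_, ?_⟩, a1, a2, a3⟩
      · have : (0 : ℝ) < t := lt_of_lt_of_le hs a1
        exact_mod_cast this
      · have := (hwin t a1 a2 a3).1
        exact_mod_cast this.trans hsl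
  rw [hWeq]
  -- value at the left end point
  have hpB : B * (1 - al n) ≤ EE n p := by
    have hc : (⌈Real.sqrt n⌉₊ : ℝ) < Real.sqrt n + 1 := Nat.ceil_lt_add_one hs.le
    have hc2 : Real.sqrt n ≤ (⌈Real.sqrt n⌉₊ : ℝ) := Nat.le_ceil _
    have hc3 : B < EE n ⌈Real.sqrt n⌉₊ := by
      refine lt_of_lt_of_le h2 ?_
      unfold EE
      apply mul_le_mul hc2 _ (Real.exp_pos _).le (by positivity)
      apply Real.exp_le_exp.mpr
      have h6 : al n * (⌈Real.sqrt n⌉₊ : ℝ) ≤ al n * (Real.sqrt n + 1) := by gcongr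
      have h7 : al n * Real.sqrt n ≤ 2 := by
        rw [tel_al_eq, div_mul_cancel₀ _ hs.ne']
        exact tel_pi6.2
      nlinarith
    have hne : ⌈Real.sqrt n⌉₊ < p := by
      have h6 : ⌈Real.sqrt n⌉₊ ≤ p := Nat.ceil_le.mpr hp1
      rcases Nat.lt_or_ge ⌈Real.sqrt n⌉₊ p with h | h
      · exact h
      · have : ⌈Real.sqrt n⌉₊ = p := le_antisymm h6 h
        rw [this] at hc3
        linarith
    obtain ⟨r, hr⟩ : ∃ r, p = r + 1 := ⟨p - 1, by omega⟩
    have hr1 : Real.sqrt n ≤ r := by
      have : ⌈Real.sqrt n⌉₊ ≤ r := by omega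
      exact hc2.trans (by exact_mod_cast this)
    have hr2 : B < EE n r := by
      by_contra hcon
      have := Nat.find_min hex1 (m := r) (by rw [← hp]; omega)
      exact this ⟨hr1, not_lt.mp hcon⟩
    rw [hr]
    have h6 : EE n r * Real.exp (-(al n)) ≤ EE n (r + 1) := by
      unfold EE
      have e1 : -(al n) * ((r + 1 : ℕ) : ℝ) = -(al n) * r + -(al n) := by push_cast; ring
      rw [e1, Real.exp_add, ← mul_assoc]
      apply mul_le_mul_of_nonneg_right _ (Real.exp_pos _).le
      apply mul_le_mul_of_nonneg_right _ (Real.exp_pos _).le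
      push_cast; linarith
    have h7 : 1 - al n ≤ Real.exp (-(al n)) := by
      have := Real.add_one_le_exp (-(al n)); linarith
    have h8 : 0 < 1 - al n := by linarith
    calc B * (1 - al n) ≤ EE n r * Real.exp (-(al n)) := by
          apply mul_le_mul hr2.le h7 h8.le (by linarith)
      _ ≤ EE n (r + 1) := h6
  -- bounds of the terms
  have hD : ∀ t ∈ Finset.Ico p q, 0 < EE n t - EE n (t + 1) ∧ EE n t - EE n (t + 1) ≤ e ∧
      EE n t / t ≤ 2 / Real.log n * ((1 + e) * (EE n t - EE n (t + 1))) ∧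
      2 / Real.log n * ((1 - e) * (EE n t - EE n (t + 1))) ≤ EE n t / t := by
    intro t ht
    obtain ⟨ht1, ht2⟩ := Finset.mem_Ico.mp ht
    obtain ⟨a1, a2, a3⟩ := hin t ht1 ht2
    obtain ⟨-, -, -, b1, b2, b3⟩ := hwin t a1 a2 a3
    obtain ⟨c1, c2⟩ := abs_le.mp b3
    refine ⟨b1, b2, ?_, ?_⟩
    · rw [div_mul_eq_mul_div, le_div_iff₀ hlog]
      linarith
    · rw [div_mul_eq_mul_div, div_le_iff₀ hlog]
      linarith
  have hsumD := tel_tele (fun t => EE n t) hpq
  have hsumE := tel_tele (fun t => Real.exp (-(EE n t))) hpq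
  have hqpos : 0 ≤ EE n q := by
    unfold EE
    have := Real.exp_pos (-(al n) * q)
    positivity
  have h2l : 0 < 2 / Real.log n := by positivity
  refine ⟨?_, ?_, ?_⟩
  · -- (a)
    have h6 : ∀ t ∈ Finset.Ico p q, EE n t / t * Real.exp (-(EE n t)) ≤
        2 / Real.log n * (1 + e) * -(Real.exp (-(EE n t)) - Real.exp (-(EE n (t + 1)))) := by
      intro t ht
      obtain ⟨b1, b2, b3, b4⟩ := hD t ht
      have h7 : (EE n t - EE n (t + 1)) * Real.exp (-(EE n t)) ≤
          -(Real.exp (-(EE n t)) - Real.exp (-(EE n (t + 1)))) := by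
        have e1 : Real.exp (-(EE n (t + 1))) =
            Real.exp (-(EE n t)) * Real.exp (EE n t - EE n (t + 1)) := by
          rw [← Real.exp_add]; congr 1; ring
        rw [e1]
        have h8 := Real.add_one_le_exp (EE n t - EE n (t + 1))
        have h9 := Real.exp_pos (-(EE n t))
        nlinarith
      calc EE n t / t * Real.exp (-(EE n t))
          ≤ 2 / Real.log n * ((1 + e) * (EE n t - EE n (t + 1))) * Real.exp (-(EE n t)) :=
            mul_le_mul_of_nonneg_right b3 (Real.exp_pos _).le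
        _ = 2 / Real.log n * (1 + e) * ((EE n t - EE n (t + 1)) * Real.exp (-(EE n t))) := by ring
        _ ≤ _ := mul_le_mul_of_nonneg_left h7 (by positivity)
    refine (Finset.sum_le_sum h6).trans ?_
    rw [← Finset.mul_sum, Finset.sum_neg_distrib, hsumE]
    have h7 : -(Real.exp (-(EE n p)) - Real.exp (-(EE n q))) ≤ 1 := by
      have h8 := Real.exp_pos (-(EE n p))
      have h9 : Real.exp (-(EE n q)) ≤ 1 := Real.exp_le_one_iff.mpr (by linarith)
      linarith
    calc 2 / Real.log n * (1 + e) * -(Real.exp (-(EE n p)) - Real.exp (-(EE n q)))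
        ≤ 2 / Real.log n * (1 + e) * 1 := mul_le_mul_of_nonneg_left h7 (by positivity)
      _ = (2 + 2 * e) / Real.log n := by ring
      _ ≤ (2 + ε) / Real.log n := by
          apply div_le_div_of_nonneg_right _ hlog.le
          linarith
  · -- (b)
    have h6 : ∀ t ∈ Finset.Ico p q, 2 / Real.log n * (1 - e) ^ 2 *
        -(Real.exp (-(EE n t)) - Real.exp (-(EE n (t + 1)))) ≤ EE n t / t * Real.exp (-(EE n t)) := by
      intro t ht
      obtain ⟨b1, b2, b3, b4⟩ := hD t ht
      set D := EE n t - EE n (t + 1) with hDD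
      have h7 : (1 - e) * -(Real.exp (-(EE n t)) - Real.exp (-(EE n (t + 1)))) ≤
          D * Real.exp (-(EE n t)) := by
        have e1 : Real.exp (-(EE n (t + 1))) = Real.exp (-(EE n t)) * Real.exp D := by
          rw [← Real.exp_add]; congr 1; rw [hDD]; ring
        rw [e1]
        have h8 : (1 - D) * Real.exp D ≤ 1 := by
          have h9 := Real.add_one_le_exp (-D)
          have h10 : Real.exp (-D) * Real.exp D = 1 := by rw [← Real.exp_add]; simp
          have h11 := Real.exp_pos D
          nlinarith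
        have h12 : (1 - e) * (Real.exp D - 1) ≤ D := by
          have h13 : 0 ≤ Real.exp D - 1 := by
            have := Real.add_one_le_exp D; linarith
          have h14 : (1 - e) * (Real.exp D - 1) ≤ (1 - D) * (Real.exp D - 1) := by
            apply mul_le_mul_of_nonneg_right _ h13
            linarith
          nlinarith
        have h15 := Real.exp_pos (-(EE n t))
        nlinarith
      have h16 : 0 ≤ 1 - e := by linarith
      calc 2 / Real.log n * (1 - e) ^ 2 * -(Real.exp (-(EE n t)) - Real.exp (-(EE n (t + 1))))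
          = 2 / Real.log n * (1 - e) *
            ((1 - e) * -(Real.exp (-(EE n t)) - Real.exp (-(EE n (t + 1))))) := by ring
        _ ≤ 2 / Real.log n * (1 - e) * (D * Real.exp (-(EE n t))) :=
            mul_le_mul_of_nonneg_left h7 (by positivity)
        _ = 2 / Real.log n * ((1 - e) * D) * Real.exp (-(EE n t)) := by ring
        _ ≤ _ := mul_le_mul_of_nonneg_right b4 (Real.exp_pos _).le
    refine le_trans ?_ (Finset.sum_le_sum h6)
    rw [← Finset.mul_sum, Finset.sum_neg_distrib, hsumE]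
    set X := Real.exp (-(1 / B)) with hX
    set Y := Real.exp (-B) with hY
    have hX1 : X ≤ 1 := Real.exp_le_one_iff.mpr (by have : 0 < 1 / B := by positivity
                                                    linarith)
    have hYX : Y ≤ X := Real.exp_le_exp.mpr (by linarith)
    have hY0 : 0 < Y := Real.exp_pos _
    have h7 : X ≤ Real.exp (-(EE n q)) := Real.exp_le_exp.mpr (by linarith)
    have h8 : Real.exp (-(EE n p)) ≤ Y * (1 + e) := by
      calc Real.exp (-(EE n p)) ≤ Real.exp (-B + B * al n) := by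
            apply Real.exp_le_exp.mpr; linarith
        _ = Y * Real.exp (B * al n) := by rw [Real.exp_add]
        _ ≤ Y * (1 + e) := by gcongr
    have h9 : X - Y - e ≤ -(Real.exp (-(EE n p)) - Real.exp (-(EE n q))) := by
      nlinarith
    have h10 : 2 * (X - Y) - ε ≤ 2 * (1 - e) ^ 2 * (X - Y - e) := by
      have hz : 0 ≤ X - Y := by linarith
      have hz1 : X - Y ≤ 1 := by linarith
      nlinarith [mul_nonneg hz he0.le, mul_nonneg (mul_nonneg hz he0.le) he0.le,
        mul_nonneg he0.le he0.le, mul_nonneg (mul_nonneg he0.le he0.le) he0.le,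
        mul_nonneg (sub_nonneg.mpr hz1) he0.le]
    calc (2 * (X - Y) - ε) / Real.log n ≤ (2 * (1 - e) ^ 2 * (X - Y - e)) / Real.log n :=
          div_le_div_of_nonneg_right h10 hlog.le
      _ = 2 / Real.log n * (1 - e) ^ 2 * (X - Y - e) := by ring
      _ ≤ _ := mul_le_mul_of_nonneg_left h9 (by positivity)
  · -- (c)
    refine (Finset.sum_le_sum (fun t ht => (hD t ht).2.2.1)).trans ?_
    rw [← Finset.mul_sum, ← Finset.mul_sum, hsumD]
    have h6 : EE n p - EE n q ≤ B := by linarith
    calc 2 / Real.log n * ((1 + e) * (EE n p - EE n q)) ≤ 2 / Real.log n * ((1 + e) * B) := by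
          apply mul_le_mul_of_nonneg_left _ h2l.le
          apply mul_le_mul_of_nonneg_left h6 (by linarith)
      _ = (2 * B + 2 * B * e) / Real.log n := by ring
      _ ≤ (2 * B + ε) / Real.log n := by
          apply div_le_div_of_nonneg_right _ hlog.le
          have : 0 < B * e := by positivity
          linarith

end Pool.Agent.Helper79.ZC
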